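import Pool.Agent.Helper65.SG.Goals

/-!
# Packet SGT-NQE: evenness of the norm polynomial
-/

set_option autoImplicit false

open MvPolynomial

namespace Pool.Agent.Helper89.SGT

open WeierstrassCurve Height
open Pool.Agent.Helper29.BL Pool.Agent.Helper92.Ru Pool.Agent.Helper42.SG Pool.Agent.Helper65.SG

noncomputable section

namespace NQEaux

/-- coefficients after a diagonal substitution. -/
lemma coeff_diag {σ K : Type} [Fintype σ] [DecidableEq σ] [Field K] (c : σ → K)
    (F : MvPolynomial σ K) (m : σ →₀ ℕ) :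
    coeff m (aeval (fun i => C (c i) * X i) F : MvPolynomial σ K) =
      (∏ i, c i ^ m i) * coeff m F := by
  induction F using MvPolynomial.induction_on' with
  | monomial u a =>
    have h1 : (aeval (fun i => C (c i) * X i) (monomial u a) : MvPolynomial σ K) =
        monomial u (a * ∏ i, c i ^ u i) := by
      rw [aeval_monomial, monomial_eq, algebraMap_eq, Finsupp.prod_fintype _ _ (by simp),
        Finsupp.prod_fintype _ _ (by simp), map_mul, map_prod, mul_assoc,
        ← Finset.prod_mul_distrib]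
      congr 1
      refine Finset.prod_congr rfl fun i _ => ?_
      rw [mul_pow, map_pow]
    rw [h1, coeff_monomial, coeff_monomial]
    split_ifs with h
    · subst h
      ring
    · ring
  | add p q hp hq =>
    rw [map_add, coeff_add, hp, hq, coeff_add]
    ring

lemma P0_congr {K : Type} [Field K] {A : Type} [CommRing A] [Algebra K A] (W : ℕ → Affine K)
    (n M δ : ℕ) (e : ℕ → ℕ) (c : Idx n M δ e → K) (X Ψ Ψ' : ℕ → A)
    (h : ∀ j < 2 * n, Ψ j * Ψ (2 * n + j % 2) = Ψ' j * Ψ' (2 * n + j % 2)) :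
    P0 W n M δ e c X Ψ = P0 W n M δ e c X Ψ' := by
  unfold P0 Paux
  have h1 : ∀ j : Fin (2 * n),
      lawV (mapW A W) n e (fun _ => false) X Ψ j.val =
        lawV (mapW A W) n e (fun _ => false) X Ψ' j.val := by
    intro j
    unfold lawV
    rw [h j.val j.2]
  simp only [h1]

variable {K : Type} [Field K]

/-- the sign at the place `h`. -/
def sg (h j : ℕ) : ℤˣ := if j = h then -1 else 1

/-- the substitution `Ψ_h ↦ -Ψ_h`. -/
def ph {n : ℕ} (h : Fin (2 * n + 2)) : GR K n →ₐ[K] GR K n :=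
  aeval (fun i => C (if i = Sum.inr h then (-1 : K) else 1) * X i)

lemma ph_gX {n : ℕ} (h : Fin (2 * n + 2)) (j : ℕ) : ph h (gX K n j) = gX K n j := by
  unfold gX ph
  split_ifs with H
  · rw [aeval_X, if_neg (by simp)]
    simp
  · simp

lemma ph_gP {n : ℕ} (h : Fin (2 * n + 2)) (j : ℕ) :
    ph h (gP K n j) = (((sg h.val j : ℤˣ) : ℤ) : GR K n) * gP K n j := by
  unfold gP ph sg
  split_ifs with H h1 h1
  · rw [aeval_X, if_pos]
    · simp
    · rw [Sum.inr.injEq, Fin.ext_iff]
      exact h1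
  · rw [aeval_X, if_neg]
    · simp
    · rw [Sum.inr.injEq, Fin.ext_iff]
      exact h1
  · simp
  · simp

lemma ph_sgn {n : ℕ} (h : Fin (2 * n + 2)) (ε : Fin (2 * n) → ℤˣ) (j : ℕ) :
    ph h (sgn n ε (gP K n) j) =
      sgn n ε (fun j => (((sg h.val j : ℤˣ) : ℤ) : GR K n) * gP K n j) j := by
  unfold sgn
  split_ifs with H
  · rw [map_mul, map_intCast, ph_gP]
  · rw [ph_gP]

lemma ph_Pe (hN : NQN) (W : ℕ → Affine K) (n M δ : ℕ) (e : ℕ → ℕ) (c : Idx n M δ e → K)
    (h : Fin (2 * n + 2)) (ε : Fin (2 * n) → ℤˣ) :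
    ph h (Pe W n M δ e c ε) =
      Pe W n M δ e c (ε * fun j => sg h.val j.val * sg h.val (2 * n + j.val % 2)) := by
  unfold Pe
  rw [hN K W n M δ e c (GR K n) (GR K n) (ph h) (gX K n) (sgn n ε (gP K n)) (gX K n)
    (sgn n ε (fun j => (((sg h.val j : ℤˣ) : ℤ) : GR K n) * gP K n j))
    (fun j _ => ⟨ph_gX h j, ph_sgn h ε j⟩)]
  refine P0_congr W n M δ e c _ _ _ fun j hj => ?_
  have h2 : ¬ (2 * n + j % 2 < 2 * n) := by omega
  unfold sgn
  rw [dif_pos hj, dif_pos hj, dif_neg h2, dif_neg h2, Pi.mul_apply]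
  push_cast
  ring

lemma ph_Qh (hN : NQN) (W : ℕ → Affine K) (n M δ : ℕ) (e : ℕ → ℕ) (c : Idx n M δ e → K)
    (h : Fin (2 * n + 2)) : ph h (Qh W n M δ e c) = Qh W n M δ e c := by
  unfold Qh
  rw [map_prod]
  simp only [ph_Pe hN W n M δ e c h]
  exact Fintype.prod_equiv
    (Equiv.mulRight (fun j : Fin (2 * n) => sg h.val j.val * sg h.val (2 * n + j.val % 2)))
    _ _ (fun ε => rfl)

end NQEaux

open NQEaux

theorem t_NQE (hN : Pool.Agent.Helper65.SG.NQN) : Pool.Agent.Helper65.SG.NQE := by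
  intro K _ _ W n M δ e c m hm h
  by_contra hodd
  rw [Nat.not_even_iff_odd] at hodd
  rw [mem_support_iff] at hm
  apply hm
  have h1 := congrArg (coeff m) (ph_Qh hN W n M δ e c h)
  unfold ph at h1
  rw [coeff_diag] at h1
  have h2 : (∏ i : Fin (2 * n + 2) ⊕ Fin (2 * n + 2),
      (if i = Sum.inr h then (-1 : K) else 1) ^ m i) = -1 := by
    rw [Finset.prod_eq_single (Sum.inr h)]
    · rw [if_pos rfl, hodd.neg_one_pow]
    · intro i _ hi
      rw [if_neg hi, one_pow]
    · intro hh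
      exact absurd (Finset.mem_univ _) hh
  rw [h2] at h1
  have h3 : (2 : K) * coeff m (Qh W n M δ e c) = 0 := by
    linear_combination -h1
  rcases mul_eq_zero.1 h3 with h4 | h4
  · exact absurd h4 two_ne_zero
  · exact h4

end

end Pool.Agent.Helper89.SGT
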